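import Mathlib
import Pool.Agent.Lib.MP_2d002d_gt.PM.Interfaces

/-!
# MP_2d002d_gt, project PM, module FIN: finiteness and positivity of the functionals
-/

set_option autoImplicit false

open MeasureTheory Set Filter Topology
open scoped ENNReal

namespace Pool.Agent.Lib.MP_2d002d_gt.PM.H25

lemma measurable_cw (hLY : LY_S) {n : ℕ} (S : Fin n → ℝ → ℝ) (hS : ∀ i, Prof (S i)) (α β : ℝ)
    (R : Finset (Fin n)) (p : ℝ × (Fin n → ℝ)) (i : Fin n) :
    Measurable (fun y => cw S α β R p i y) := by
  unfold cw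
  by_cases hi : i ∈ R
  · simp only [hi, if_true]
    refine Measurable.ite ?_ measurable_const measurable_const
    exact (isClosed_le continuous_abs continuous_const).measurableSet
  · simp only [hi, if_false]
    exact (hLY (S i) (hS i)).1.comp (measurable_id.div_const _)

lemma cw_le_one (hLY : LY_S) {n : ℕ} (S : Fin n → ℝ → ℝ) (hS : ∀ i, Prof (S i)) (α β : ℝ)
    (R : Finset (Fin n)) (p : ℝ × (Fin n → ℝ)) (i : Fin n) (y : ℝ) :
    cw S α β R p i y ≤ 1 := by
  unfold cw
  by_cases hi : i ∈ R
  · simp only [hi, if_true]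
    split_ifs <;> simp
  · simp only [hi, if_false]
    exact (hLY (S i) (hS i)).2.2.2.1 _

/-- a bound for the support of the weight -/
lemma cw_supp (hLY : LY_S) {n : ℕ} (S : Fin n → ℝ → ℝ) (hS : ∀ i, Prof (S i)) (α β : ℝ)
    (R : Finset (Fin n)) (p : ℝ × (Fin n → ℝ)) (hp : p ∈ Om n α β) (i : Fin n) :
    ∃ B : ℝ, ∀ y, B < |y| → cw S α β R p i y = 0 := by
  unfold cw
  by_cases hi : i ∈ R
  · simp only [hi, if_true]
    exact ⟨p.2 i, fun y hy => by simp [not_le.mpr hy]⟩
  · simp only [hi, if_false]
    obtain ⟨C, hC⟩ := (hS i).bdd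
    have hr : 0 < α + β * p.1 := hp.1
    refine ⟨(α + β * p.1) * C, fun y hy => ?_⟩
    refine (hLY (S i) (hS i)).2.2.2.2.2 C (fun z hz => ?_) _ ?_
    · exact (le_abs_self _).trans (hC z hz).1
    · rw [abs_div, abs_of_pos hr, lt_div_iff₀ hr]
      linarith [mul_comm C (α + β * p.1)]

/-- the weight is one near the origin -/
lemma cw_eq_one (hLY : LY_S) {n : ℕ} (S : Fin n → ℝ → ℝ) (hS : ∀ i, Prof (S i)) (α β : ℝ)
    (R : Finset (Fin n)) (p : ℝ × (Fin n → ℝ)) (hp : p ∈ Om n α β) (i : Fin n) :
    ∃ b : ℝ, 0 < b ∧ ∀ y, |y| ≤ b → cw S α β R p i y = 1 := by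
  unfold cw
  by_cases hi : i ∈ R
  · simp only [hi, if_true]
    exact ⟨p.2 i, hp.2 i, fun y hy => by simp [hy]⟩
  · simp only [hi, if_false]
    have hr : 0 < α + β * p.1 := hp.1
    refine ⟨(α + β * p.1) * S i 0, mul_pos hr ((hS i).pos 0 le_rfl), fun y hy => ?_⟩
    refine (hLY (S i) (hS i)).2.2.2.2.1 _ ?_
    rw [abs_div, abs_of_pos hr, div_le_iff₀ hr]
    linarith [mul_comm (S i 0) (α + β * p.1)]

theorem fin (hLY : LY_S) : FIN_S := by
  intro n U S α β R hU hS p hp
  have hUc : Continuous (fun x : Fin n → ℝ => Real.exp (-U (p.1, x))) :=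
    Real.continuous_exp.comp (hU.smooth.continuous.comp (continuous_const.prodMk continuous_id)).neg
  constructor
  · choose B hB using cw_supp hLY S hS α β R p hp
    have hle : HE U S α β R p ≤
        ∫⁻ x : Fin n → ℝ, (Set.pi univ (fun i => Icc (-B i) (B i))).indicator 1 x := by
      unfold HE
      refine lintegral_mono fun x => ?_
      by_cases hx : x ∈ Set.pi univ (fun i => Icc (-B i) (B i))
      · rw [indicator_of_mem hx]
        have h1 : (∏ i, cw S α β R p i (x i)) ≤ 1 :=
          Finset.prod_le_one' fun i _ => cw_le_one hLY S hS α β R p i (x i)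
        have h2 : ENNReal.ofReal (Real.exp (-U (p.1, x))) ≤ 1 := by
          rw [ENNReal.ofReal_le_one, Real.exp_le_one_iff]
          linarith [hU.nonneg (p.1, x)]
        calc (∏ i, cw S α β R p i (x i)) * ENNReal.ofReal (Real.exp (-U (p.1, x)))
            ≤ 1 * 1 := mul_le_mul' h1 h2
          _ = 1 := by simp
      · have : ∃ i, B i < |x i| := by
          by_contra hcon
          push Not at hcon
          exact hx fun i _ => abs_le.mp (hcon i)
        obtain ⟨i, hi⟩ := this
        have h0 : (∏ i, cw S α β R p i (x i)) = 0 :=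
          Finset.prod_eq_zero (Finset.mem_univ i) (hB i _ hi)
        rw [h0, zero_mul]
        exact zero_le
    refine ne_top_of_le_ne_top ?_ hle
    rw [lintegral_indicator_one (MeasurableSet.univ_pi fun i => measurableSet_Icc)]
    exact (isCompact_univ_pi fun i => isCompact_Icc).measure_lt_top.ne
  · choose b hb hb1 using cw_eq_one hLY S hS α β R p hp
    set T : Set (Fin n → ℝ) := Set.pi univ (fun i => Icc (-b i) (b i)) with hT
    have hTm : MeasurableSet T := MeasurableSet.univ_pi fun i => measurableSet_Icc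
    intro h0
    have hge : ∫⁻ x in T, ENNReal.ofReal (Real.exp (-U (p.1, x))) ≤ HE U S α β R p := by
      rw [← lintegral_indicator hTm]
      unfold HE
      refine lintegral_mono fun x => ?_
      by_cases hx : x ∈ T
      · rw [indicator_of_mem hx]
        have h1 : (∏ i, cw S α β R p i (x i)) = 1 :=
          Finset.prod_eq_one fun i _ => hb1 i _ (abs_le.mpr (hx i (mem_univ i)))
        rw [h1, one_mul]
      · rw [indicator_of_notMem hx]
        exact zero_le
    have hz : ∫⁻ x in T, ENNReal.ofReal (Real.exp (-U (p.1, x))) = 0 :=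
      le_antisymm (hge.trans h0.le) (zero_le)
    rw [lintegral_eq_zero_iff hUc.measurable.ennreal_ofReal] at hz
    have hae : ∀ᵐ x ∂(volume.restrict T), False := by
      filter_upwards [hz] with x hx
      have : 0 < ENNReal.ofReal (Real.exp (-U (p.1, x))) :=
        ENNReal.ofReal_pos.mpr (Real.exp_pos _)
      simp only [Pi.zero_apply] at hx
      exact absurd hx this.ne'
    rw [ae_iff] at hae
    simp only [not_false_eq_true, Set.ofPred_true, Measure.restrict_apply_univ] at hae
    have hpos : 0 < volume T := by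
      rw [hT, volume_pi_pi]
      refine pos_iff_ne_zero.mpr (Finset.prod_ne_zero_iff.mpr fun i _ => ?_)
      rw [Real.volume_Icc]
      have := hb i
      exact (ENNReal.ofReal_pos.mpr (by linarith)).ne'
    exact hpos.ne' hae

end Pool.Agent.Lib.MP_2d002d_gt.PM.H25
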