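import Mathlib
import Pool.Agent.Lib.MP_2d002d_gt.PM.Interfaces
import Pool.Agent.Lib.MP_2d002d_gt.PM.H25.Fin

/-!
# MP_2d002d_gt, project PM, module FUB: the recursion for the functionals
-/

set_option autoImplicit false

open MeasureTheory Set Filter Topology
open scoped ENNReal

namespace Pool.Agent.Lib.MP_2d002d_gt.PM.H25

lemma pt_mem_Om {n : ℕ} {α β : ℝ} {S : ℝ → ℝ} (hS : Prof S) (i : Fin n)
    {p : ℝ × (Fin n → ℝ)} (hp : p ∈ Om n α β) {z : ℝ} (hz : 0 ≤ z) :
    pt α β S i p z ∈ Om n α β := by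
  refine ⟨hp.1, fun l => ?_⟩
  by_cases hl : l = i
  · subst hl
    simp only [pt, Function.update_self]
    exact mul_pos hp.1 (hS.pos z hz)
  · simp only [pt, Function.update_of_ne hl]
    exact hp.2 l

/-- the weights off `i` do not see the change of the wall `i` -/
lemma cw_off {n : ℕ} (S : Fin n → ℝ → ℝ) (α β : ℝ) (R : Finset (Fin n)) (i : Fin n)
    (p : ℝ × (Fin n → ℝ)) (z : ℝ) (l : Fin n) (hl : l ≠ i) (y : ℝ) :
    cw S α β R (pt α β (S i) i p z) l y = cw S α β R p l y := by
  unfold cw pt
  simp only [Function.update_of_ne hl]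

lemma cw_erase_off {n : ℕ} (S : Fin n → ℝ → ℝ) (α β : ℝ) (R : Finset (Fin n)) (i : Fin n)
    (p : ℝ × (Fin n → ℝ)) (l : Fin n) (hl : l ≠ i) (y : ℝ) :
    cw S α β (R.erase i) p l y = cw S α β R p l y := by
  unfold cw
  simp only [Finset.mem_erase, ne_eq, hl, not_false_eq_true, true_and]

lemma cw_on {n : ℕ} (S : Fin n → ℝ → ℝ) (α β : ℝ) (R : Finset (Fin n)) (i : Fin n)
    (hi : i ∈ R) (p : ℝ × (Fin n → ℝ)) (z : ℝ) (y : ℝ) :
    cw S α β R (pt α β (S i) i p z) i y =
      if |y| ≤ (α + β * p.1) * S i z then 1 else 0 := by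
  unfold cw pt
  simp only [hi, if_true, Function.update_self]

lemma cw_erase_on {n : ℕ} (S : Fin n → ℝ → ℝ) (α β : ℝ) (R : Finset (Fin n)) (i : Fin n)
    (hi : i ∈ R) (p : ℝ × (Fin n → ℝ)) (hp : p ∈ Om n α β) (y : ℝ) :
    cw S α β (R.erase i) p i y =
      ∫⁻ z in Ioi (0 : ℝ), ENNReal.ofReal (Real.exp (-z)) *
        cw S α β R (pt α β (S i) i p z) i y := by
  have hr : 0 < α + β * p.1 := hp.1
  have h1 : cw S α β (R.erase i) p i y = ly (S i) (y / (α + β * p.1)) := by
    unfold cw
    simp
  rw [h1]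
  unfold ly
  refine lintegral_congr fun z => ?_
  rw [cw_on S α β R i hi p z y, abs_div, abs_of_pos hr, mul_ite, mul_one, mul_zero]
  have hiff : |y| / (α + β * p.1) ≤ S i z ↔ |y| ≤ (α + β * p.1) * S i z := by
    rw [div_le_iff₀ hr, mul_comm]
  simp only [hiff]

lemma meas_joint (hLY : LY_S) {n : ℕ} (U : ℝ × (Fin n → ℝ) → ℝ) (S : Fin n → ℝ → ℝ) (α β : ℝ)
    (R : Finset (Fin n)) (i : Fin n) (hU : Pot U) (hS : ∀ l, Prof (S l)) (hi : i ∈ R)
    (p : ℝ × (Fin n → ℝ)) :
    Measurable (fun q : (Fin n → ℝ) × ℝ =>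
      (∏ l, cw S α β R (pt α β (S i) i p q.2) l (q.1 l)) *
        ENNReal.ofReal (Real.exp (-U ((pt α β (S i) i p q.2).1, q.1)))) := by
  refine Measurable.mul ?_ ?_
  · refine Finset.measurable_fun_prod _ fun l _ => ?_
    by_cases hl : l = i
    · subst hl
      simp only [cw_on S α β R l hi p]
      refine Measurable.ite ?_ measurable_const measurable_const
      have hc : Continuous (S l) := (hS l).smooth.continuous
      refine (isClosed_le ?_ ?_).measurableSet
      · exact continuous_abs.comp ((continuous_apply l).comp continuous_fst)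
      · exact continuous_const.mul (hc.comp continuous_snd)
    · simp only [cw_off S α β R i p _ l hl]
      exact (measurable_cw hLY S hS α β R p l).comp
        ((measurable_pi_apply l).comp measurable_fst)
  · have hc : Continuous (fun q : (Fin n → ℝ) × ℝ =>
        Real.exp (-U ((pt α β (S i) i p q.2).1, q.1))) := by
      refine Real.continuous_exp.comp (hU.smooth.continuous.comp ?_).neg
      exact continuous_const.prodMk continuous_fst
    exact hc.measurable.ennreal_ofReal

/-- the recursion for `HE` -/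
theorem HE_erase (hLY : LY_S) {n : ℕ} (U : ℝ × (Fin n → ℝ) → ℝ) (S : Fin n → ℝ → ℝ) (α β : ℝ)
    (R : Finset (Fin n)) (i : Fin n) (hU : Pot U) (hS : ∀ l, Prof (S l)) (hi : i ∈ R)
    (p : ℝ × (Fin n → ℝ)) (hp : p ∈ Om n α β) :
    HE U S α β (R.erase i) p =
      ∫⁻ z in Ioi (0 : ℝ), HE U S α β R (pt α β (S i) i p z) *
        ENNReal.ofReal (Real.exp (-z)) := by
  have hJ := meas_joint hLY U S α β R i hU hS hi p
  have hexp : Measurable (fun z : ℝ => ENNReal.ofReal (Real.exp (-z))) :=
    (Real.continuous_exp.comp continuous_neg).measurable.ennreal_ofReal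
  have key : ∀ x : Fin n → ℝ,
      (∏ l, cw S α β (R.erase i) p l (x l)) * ENNReal.ofReal (Real.exp (-U (p.1, x))) =
      ∫⁻ z in Ioi (0 : ℝ), ((∏ l, cw S α β R (pt α β (S i) i p z) l (x l)) *
        ENNReal.ofReal (Real.exp (-U ((pt α β (S i) i p z).1, x)))) *
        ENNReal.ofReal (Real.exp (-z)) := by
    intro x
    rw [← Finset.mul_prod_erase Finset.univ _ (Finset.mem_univ i), cw_erase_on S α β R i hi p hp]
    have h2 : ∀ z : ℝ, ((∏ l, cw S α β R (pt α β (S i) i p z) l (x l)) *
        ENNReal.ofReal (Real.exp (-U ((pt α β (S i) i p z).1, x)))) *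
        ENNReal.ofReal (Real.exp (-z)) =
        (ENNReal.ofReal (Real.exp (-z)) * cw S α β R (pt α β (S i) i p z) i (x i)) *
        ((∏ l ∈ Finset.univ.erase i, cw S α β (R.erase i) p l (x l)) *
          ENNReal.ofReal (Real.exp (-U (p.1, x)))) := by
      intro z
      rw [← Finset.mul_prod_erase Finset.univ _ (Finset.mem_univ i)]
      have h3 : (∏ l ∈ Finset.univ.erase i, cw S α β R (pt α β (S i) i p z) l (x l)) =
          ∏ l ∈ Finset.univ.erase i, cw S α β (R.erase i) p l (x l) := by
        refine Finset.prod_congr rfl fun l hl => ?_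
        have hl' : l ≠ i := (Finset.mem_erase.mp hl).1
        rw [cw_off S α β R i p z l hl', cw_erase_off S α β R i p l hl']
      rw [h3]
      have h4 : (pt α β (S i) i p z).1 = p.1 := rfl
      rw [h4]
      ring
    simp only [h2]
    rw [lintegral_mul_const]
    · ring
    · refine hexp.mul ?_
      simp only [cw_on S α β R i hi p]
      refine Measurable.ite ?_ measurable_const measurable_const
      exact (isClosed_le continuous_const
        (continuous_const.mul (hS i).smooth.continuous)).measurableSet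
  have hL : HE U S α β (R.erase i) p = ∫⁻ x : Fin n → ℝ,
      ∫⁻ z in Ioi (0 : ℝ), ((∏ l, cw S α β R (pt α β (S i) i p z) l (x l)) *
        ENNReal.ofReal (Real.exp (-U ((pt α β (S i) i p z).1, x)))) *
        ENNReal.ofReal (Real.exp (-z)) := by
    unfold HE
    exact lintegral_congr key
  rw [hL, lintegral_lintegral_swap]
  · refine lintegral_congr fun z => ?_
    unfold HE
    rw [lintegral_mul_const]
    exact hJ.comp (measurable_id.prodMk measurable_const)
  · refine Measurable.aemeasurable ?_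
    exact hJ.mul (hexp.comp measurable_snd)

theorem fub (hFIN : FIN_S) (hLY : LY_S) : FUB_S := by
  intro n U S α β R i hU hS hi p hp
  have hJ := meas_joint hLY U S α β R i hU hS hi p
  have hexp : Measurable (fun z : ℝ => ENNReal.ofReal (Real.exp (-z))) :=
    (Real.continuous_exp.comp continuous_neg).measurable.ennreal_ofReal
  have hHE : Measurable (fun z : ℝ => HE U S α β R (pt α β (S i) i p z)) := by
    unfold HE
    exact hJ.lintegral_prod_left'
  unfold HR TT
  rw [HE_erase hLY U S α β R i hU hS hi p hp, ← integral_toReal]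
  · refine integral_congr_ae (Filter.Eventually.of_forall fun z => ?_)
    simp only
    rw [ENNReal.toReal_mul, ENNReal.toReal_ofReal (Real.exp_pos _).le]
  · exact (hHE.mul hexp).aemeasurable
  · rw [ae_restrict_iff' measurableSet_Ioi]
    refine Filter.Eventually.of_forall fun z hz => ?_
    refine ENNReal.mul_lt_top ?_ ENNReal.ofReal_lt_top
    exact lt_top_iff_ne_top.mpr (hFIN n U S α β R hU hS _ (pt_mem_Om (hS i) i hp hz.le)).1

end Pool.Agent.Lib.MP_2d002d_gt.PM.H25
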